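import Pool.Agent.P.MP_1307d3_al.Sol3

namespace Pool.Agent.Results.MP_1307d3_al.SolubleCover

universe u

/-- A locally graded group of prime exponent is not the union of the conjugates of a proper
soluble subgroup. -/
theorem result {p : ℕ} (hp : p.Prime) {G : Type u} [Group G]
    (hG : ∀ H : Subgroup G, H.FG → H ≠ ⊥ → ∃ M : Subgroup H, M ≠ ⊤ ∧ M.FiniteIndex)
    (hE : ∀ g : G, g ^ p = 1) (A : Subgroup G) (hA : Group.IsSolvable A)
    (hcov : ∀ x : G, ∃ g : G, ∃ a ∈ A, x = g⁻¹ * a * g) : A = ⊤ :=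
  P.MP_1307d3_al.Sol.main hp hG hE A hcov

end Pool.Agent.Results.MP_1307d3_al.SolubleCover
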